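import Mathlib
import Pool.Agent.Helper28.IV.Main

/-!
# Voisin's conjecture for products of curves, symmetric squares, elliptic K3 surfaces and what they decompose into

Let `k` be an algebraically closed field of characteristic zero. `Cls k F p` (file Helper28/IV/Cls.lean) is the smallest
class of pairs of a field `F` over `k` and a number `p` with the following properties.
* (`prod`) The pair of the function field of `C₁ × C₂` and of `g₁ g₂` is in the class, for all curves `C₁`, `C₂` of genus `g₁`, `g₂`.
* (`sym`) The pair of the function field of `Sym² C` and of `g (g - 1) / 2` is in the class, for all curves `C` of genus `g`.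
* (`fib`) Let `C` be a curve of genus one over the function field `K` of the projective line, with Jacobian
  `y ^ 2 = x ^ 3 + a x + b`, and let the minimal divisor `E` on the line with `div a + 4 E ≥ 0`, `div b + 6 E ≥ 0` be of degree two.
  Then `(k (C), 1)` is in the class. These are the relatively minimal fibrations `S` over the line in curves of genus one with
  `χ (O_S) = 2`, in particular all K3 surfaces with a fibration in curves of genus one (no multiple fibres).
* (`dec`) Let the finite group `G` act on a field `N`, let `H`, `G_1, …, G_m` be subgroups such that the permutation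
  representation `ℚ[G/H]` is a direct factor of the sum of the `ℚ[G/G_i]` (`e_H = ∑ Y_i e_{G_i} X_i` in `ℚ[G]` for some `X_i`, `Y_i`;
  `e_H`, `e_{G_i}` the sums of the elements), and let the pairs of the fixed field of `G_i` and `p_i` be in the class. Then the pair
  of the fixed field of `H` and `p_1 + ⋯ + p_m` is in the class. So if `F ⊆ F'` is a finite extension and `(F', p)` is
  in the class then `(F, p)` is (`N` the Galois closure).

Theorem. Let `(F, p)` be in the class, `S ⊆ P^(M-1)` the closure of a point `ξ` with coordinates in `F` (for example any
projective surface with function field `F`), `n > p`, and `a_1, …, a_n` ALBANESE TRIVIAL cycles on `S`: of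
degree zero, and for every finite extension `F'` of `F` and every curve `B` of positive genus with `k (B) ⊆ F'` mapped to
zero by the map `S → Pic (B)` (pull-back to `F'`, push-forward to `B`), which is assumed to be defined on all of
`S` (`IsCor`, file Helper15/JD/IsCor.lean). Then the alternating sum of the exterior products `a_{σ(1)} × ⋯ × a_{σ(n)}` is torsion
in the Chow group of zero-cycles of `S ^ n`.
For smooth `S` with function field `F` these maps are morphisms, and they vanish on all cycles of degree zero with
trivial image in the Albanese variety. Conversely the condition says that the image in the Albanese variety is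
torsion, because every abelian variety is a factor of a Jacobian up to isogeny. So the theorem is Voisin's
conjecture (over `ℚ`; over `ℤ` by Roitman's theorem) for `S` and `n > p`.

Examples with `p = p_g (S)` (not part of the theorem), for smooth projective `S`:
* ALL MINIMAL SURFACES OF GENERAL TYPE WITH `χ (O_S) = 1` AND `q (S) ≥ 3`, OR WITH `χ (O_S) = 1`, `q (S) = 2`, `K_S ^ 2 = 4`:
  * `p_g = q = 4`: `S` is the product of two curves of genus two (Beauville), and `q ≥ 5` is impossible;
  * `p_g = q = 3`: `K² = 6` and `S` is the symmetric square of a curve of genus three, or `K² = 8` and `S` is the quotient of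
    `C₁ × C₂` by `(σ₁, σ₂)`, where `C₁` is a curve of genus two, `C₁ / σ₁` is elliptic, `C₂` is a curve of genus three and `σ₂`
    has no fixed points (Catanese, Ciliberto, Mendes Lopes; Hacon, Pardini; Pirola). Then `C₂` is hyperelliptic: for an
    étale double cover `C₂` of a curve of genus two with the Weierstrass points `w_i` which is given by the class
    `w_i - w_j`, the function field is `k (x, √α, √β)` with `deg α = 2`, `deg β = 4`. Let `η_i` be the hyperelliptic
    involutions. By (`dec`) for the group `⟨η₁, σ₁⟩ × ⟨η₂, σ₂⟩`, `H` generated by `(σ₁, σ₂)` and the subgroups `⟨σ₁⟩ × ⟨σ₂⟩`,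
    `⟨σ₁ η₁⟩ × ⟨σ₂ η₂⟩`, `⟨η₁⟩ × 1`, `1 × ⟨η₂⟩` the pair of `k (S)` and
    `p = g (C₁ / σ₁) g (C₂ / σ₂) + g (C₁ / σ₁ η₁) g (C₂ / σ₂ η₂) = 1 * 2 + 1 * 1` is in the class;
  * `p_g = q = 2`, `K² = 4`: the canonical model of `S` is a double cover of its Albanese surface `A`, a principally polarized
    abelian surface, branched along a divisor `B` in `|2 Θ|` with negligible singularities (Barja, Pardini, Stoppino; Lu, Zuo;
    `K² = 4 χ` is the equality in the Severi inequality; `S` has maximal Albanese dimension, because otherwise
    `K² ≥ 8 (b - 1) (g - 1) ≥ 8`). Let `A = J (C)`, where `C : y ^ 2 = f (x)` with `deg f = 6`. The surface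
    `{P₁ + P₂ + P₃ : c₀ + c₁ e₁ + c₂ e₂ + c₃ e₃ = 0} ⊆ Sym³ C`, where `e_j` are the elementary symmetric functions of the `x (P_i)`,
    is a double cover of `Pic³ C`: it meets each pencil `|D|`, `deg D = 3`, in two points, and the branch divisor
    is the discriminant; the map from the forms `φ = c₀ + c₁ e₁ + c₂ e₂ + c₃ e₃` to `|2 Θ| = ℙ³` is given by the quadrics
    through the six points `φ = ∏_i (x_i - a_j)`, `f (a_j) = 0`, its general fibre consists of two points, and it is
    surjective if the blow up of the six points is added. So `k (S)` is the fixed field of `S₃` in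
    `N = k (x_i, y_i : i < 3)`, `y_i ^ 2 = f (x_i)`, `c₀ + c₁ e₁ + c₂ e₂ + c₃ e₃ = 0`, or (for the exceptional points, `a_j` moved to
    infinity) the fixed field of `S₂` in `k (x₀, y₀, x₁, y₁, w)`, `y_i ^ 2 = f (x_i)`, `deg f = 5`,
    `w ^ 2 = c₀ + c₁ (x₀ + x₁) + c₂ x₀ x₁`. If `A` is the product of two elliptic curves `y_i ^ 2 = f_i (x_i)` then `k (S)` is
    `k (x₀, y₀, x₁, y₁, w)` with `w ^ 2 = c₀ + c₁ x₀ + c₂ x₁ + c₃ x₀ x₁`. Let `G` be the group of the automorphisms of `N` given
    by permutations and changes of signs of the `y_i`, and `H ⊆ G` the group of permutations. There are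
    three subgroups `Γ_j` of `G` (`ε_0 = 1` and `π (0) = 0`; `ε_0 ε_1 = 1` and `π (2) = 2`; `ε_0 ε_1 ε_2 = 1`) such that (`dec`) applies;
    the fixed field of the first one is the function field of a ruled surface, those of the other ones are the
    function fields of the Kummer surface of `C` and of the double plane over the six lines
    `a_j³ - a_j² e₁ + a_j e₂ - e₃ = 0`, where `c₀ + c₁ e₁ + c₂ e₂ + c₃ e₃ = 0`; both are elliptic K3 surfaces. So the pair of `k (S)`
    and `2 = 0 + 1 + 1` is in the class. The other two cases are similar. These surfaces have up to six moduli.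
* ALL `(ℤ/2)^r`-COVERS `S` OF `P¹ × P¹` BRANCHED ALONG LINES OF THE TWO RULINGS, in other words all
  `(C₁ × C₂) / H`, where `G_i = (ℤ/2)^(r_i)` acts on `C_i`, `C_i / G_i` is rational, and `H` is a subgroup of `G₁ × G₂`: the
  representation `ℚ[G₁ × G₂ / H]` is the sum of the characters `χ₁ ⊠ χ₂` which are trivial on `H`, `χ₁ ⊠ χ₂` is a factor of
  `ℚ[G₁ × G₂ / (ker χ₁ × ker χ₂)]`, and `p = ∑ g (C₁ / ker χ₁) g (C₂ / ker χ₂) = p_g (S)` by Künneth's formula (the membership
  in the class is proved in Helper79/IV/Z2.lean). If `H = G₁ = G₂` is embedded diagonally and acts freely on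
  `C₁ × C₂` these surfaces form COMPONENTS OF THE MODULI SPACE of surfaces of general type with `K² = 8 χ`, `q = 0`
  (Catanese); for instance for `r = 3` there are such components with `K² = 4 (s - 4) (t - 4)`, `p_g = (s - 4) (t - 4) / 2 - 1`,
  of dimension `s + t - 6`, for all even `s ≥ 6` and all `t ≥ 5`; here `C₁ → P¹` has `s` branch points with monodromy in `{e₁, e₂, e₃}`
  and `C₂ → P¹` has `t` branch points with monodromy in `{e₁ + e₂, e₁ + e₃, e₂ + e₃, e₁ + e₂ + e₃}`.
* All `(ℤ/2)^r`-covers of the plane branched along tangents of a smooth conic: the double plane branched along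
  `2 g + 2` tangents is dominated by `Sym² C`, where `C` is the double cover of the conic branched in the `2 g + 2` points of tangency, and
  `p_g = g (g - 1) / 2` for both (membership: Helper79/IV/Tan.lean). More generally all `(ℤ/2)^r`-covers of a rational surface such that each of the `2 ^ r - 1`
  double subcovers is of this form, or a double cover of `P¹ × P¹` branched along lines of the rulings, or an
  elliptic K3 surface, or rational.

Outline of the proof. All cycles are written in terms of the rational places (valuation rings with residue field `k`) of the
algebraic closure of `F`, and correspondences in terms of embeddings of fields.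
* Products. A function on the points of a model of `F = k (C₁ × C₂)`, vanishing on the cycles rationally
  equivalent to zero, gives a function `u` on the rational places of `F`. It depends only on the restrictions of the
  place to `k (C₁)` and `k (C₂)` (Helper70/IR2/Dep.lean): let `w` be a place over `(Q₁, Q₂)` and `r` a function on `C₂` with a simple zero in
  `Q₂` and all other zeros outside of a given finite set. The sum of `u` over the conjugates of `w` over `k (C₁) (r)` depends only on `Q₁`;
  the conjugates are places over `(Q₁, z)`, where `z` runs through the zeros of `r`, only `w` itself is one over `(Q₁, Q₂)`, and for the other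
  ones the model is given near `(Q₁, z)` by regular functions of the pair of points without common zero. Morphisms of
  curves to `C₁ × C₂` are lifted to the models after a finite covering (Helper26/IV/Lift.lean). So every function on
  the `n`-fold product of the model which vanishes on the cycles rationally equivalent to zero comes from one on
  `(C₁ × C₂) ^ n` (Helper28/IV/Fact.lean). By Riemann's inequality `g + 1` points of a curve can be moved so that one of them is a given
  point `o`; so the symmetrization of `(x_0 - o) × ⋯ × (x_g - o)` is torsion in the Chow group of `C ^ (g + 1)`. The rest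
  is the representation theory of symmetric groups (Helper26/VC): a vector which is killed by the symmetrizers on
  `g₁ + 1` letters and by the antisymmetrizers on `g₂ + 1` letters vanishes if there are more than `g₁ g₂` letters.
* Symmetric squares (Helper17/IV/Sym.lean, Helper26/VC/SymSq.lean): the same for invariant cycles on `C × C`, and a vector in a
  representation of the symmetric group of `2 n` letters which is invariant under the exchange of the members
  of `n` pairs, anti-invariant under the exchange of two pairs and killed by the symmetrizers on `g + 1` letters
  vanishes if `n > g (g - 1) / 2`.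
* Elliptic K3 surfaces: Helper21/TB.
* Decomposition (Helper15/JE/Dec.lean, Helper15/JD/FamA.lean). Let `ψ_s : F → Ē` be a family of embeddings in the algebraic closure
  of `E`, invariant under the automorphisms over `E`. The closure `X` of the point with coordinates
  `∏_s ψ_s (∑_j c_j ξ_j)`, where `c` runs through a grid, is a model of a subfield of `E`, and its points are products of linear
  forms; so it carries a correspondence `Z` to cycles on `S`. If a multiple of every Albanese trivial cycle `a` on `S` is
  `∑_i Z_i (b_i)` with Albanese trivial `b_i` on models `X_i` of the `E_i`, then in the expansion of the alternating product of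
  `n > ∑ p_i` such sums each term contains more than `p_i` factors from some `X_i`; by the theorem for `X_i` it vanishes. For
  (`dec`) the identity in the group ring gives such a decomposition.
-/

namespace Pool.Agent.Results.MP_83b46e_ag.IrregularSurfaces

open VC Pool.Agent.Helper21.TO Pool.Agent.Helper15.GT Pool.Agent.Helper15.JD Pool.Agent.Helper28.IV

universe u

theorem result (k : Type u) [Field k] [IsAlgClosed k] [CharZero k] (F : Type u) [Field F] [Algebra k F]
    (p : ℕ) (h : Pool.Agent.Helper28.IV.Cls k F p) (M : ℕ) (ξ : Fin M → F) (hξ : ξ ≠ 0) (n : ℕ) (hn : p < n)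
    (a : Fin n → (proj k (van k ξ)).Cycles) (ha0 : ∀ l, (a l).sum (fun _ c => c) = 0)
    (haJ : ∀ (N : Type u) [Field N] [Algebra k N] (i : F →ₐ[k] N) (_ : (i : F →+* N).Finite) (K : Type u)
      [Field K] [Algebra k K] (hK : IsFunctionField k K) (j : K →ₐ[k] N), ¬ IsGenus k K 0 →
        ∃ θ : PPt k k (van k ξ) → Place k K →₀ ℤ, IsCor hK i j ξ hξ θ ∧
          ∀ l, Finsupp.linearCombination ℤ θ (a l) ∈ (curve hK).Rat) :
    ∃ m : ℕ, 0 < m ∧ m • ∑ σ : Equiv.Perm (Fin n), ((Equiv.Perm.sign σ : ℤˣ) : ℤ) •
      extProd (fun i => a (σ i)) ∈ ((proj k (van k ξ)).pow n).Rat :=
  Pool.Agent.Helper28.IV.main h ξ hξ hn a ha0 haJ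

end Pool.Agent.Results.MP_83b46e_ag.IrregularSurfaces
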