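import Mathlib
import Pool.Agent.Helper15.KP.Main1
import Pool.Agent.Helper67.KQ.Main2

/-!
# Voisin's conjecture for the surfaces of general type with `p_g = 1`, `q = 0`, `K ^ 2 ≤ 2` (with a torsion class of order two if
`K ^ 2 = 2`)

Let `k` be an algebraically closed field of characteristic zero. We consider two kinds of fields `F` over `k`, generated by
elements `s`, `t`, `z`, `w`, where `s`, `t` are algebraically independent and `[F : k (s, t)] = 4`.

(A) (`KSquareOne`) `z ^ 2 = a (s, t, 1) w + f (s, t, 1)`, `w ^ 2 = b (s, t, 1) z + g (s, t, 1)` with linear forms `a`, `b` and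
cubic forms `f`, `g` in `X 0`, `X 1`, `X 2`; for some `l ∈ k` the plane cubic `C_l : l³ X₂ b² - 4 l² g + 4 l f - X₂ a² = 0` is
smooth. So `F` is the function field of the complete intersection `z ^ 2 = x₀ a (y₁, y₂, x₀²) w + f (y₁, y₂, x₀²)`,
`w ^ 2 = x₀ b (y₁, y₂, x₀²) z + g (y₁, y₂, x₀²)` of two hypersurfaces of degree six in the weighted projective space
`P (1, 2, 2, 3, 3)`.

(B) (`KSquareTwo`) `t z ^ 2 = t a (s) w + f (s, t)`, `t w ^ 2 = t b (s) z + g (s, t)`, where `f = f0 t ^ 2 + f2 (s) t + f4 (s)`,
`g = g0 t ^ 2 + g2 (s) t + g4 (s)`, with polynomials `a`, `b`, `f2`, `g2`, `f4`, `g4` in one variable of degrees at most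
`1, 1, 2, 2, 4, 4` and `f0`, `g0` in `k`; for some `l ∈ k` the discriminant `disc l` with respect to `t` of
`C_l : l³ t b² - 4 l² g + 4 l f - t a² = 0` is, as a form of degree four in `y₁, y₂`, without multiple roots, that is, the
polynomial `disc l` has no multiple root and its degree is at least three (so `C_l` is a smooth curve of genus one). With
`s = y₁ / y₂`, `t = (p₃ / y₂) ^ 2`, `z = p₁ / (p₃ y₂)`, `w = p₂ / (p₃ y₂)`, `F` is the function field of the quotient `T / ι` of the
complete intersection `T` of two quartics `p₁ ^ 2 = a (y₁, y₂) p₃ p₂ + f (y₁, y₂, p₃ ^ 2)`,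
`p₂ ^ 2 = b (y₁, y₂) p₃ p₁ + g (y₁, y₂, p₃ ^ 2)` in `P (1, 1, 1, 2, 2)` with the coordinates `y₁, y₂, p₃, p₁, p₂`, where `ι`
changes the signs of `p₃, p₁, p₂`.

Assume moreover that every function field of a curve which is contained in `F` has genus zero (`hq`; this is so if the
irregularity of the surface is zero).

Theorem. Let `S ⊆ P^(M-1)` be the closure of a point `ξ` with coordinates in `F` (for example any projective surface with
function field `F`), `n ≥ 2`, and `c_1, …, c_n` zero-cycles of degree zero on `S`. Then the alternating sum of the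
exterior products `c_{σ(1)} × ⋯ × c_{σ(n)}` is torsion in the Chow group of zero-cycles of `S ^ n`.

Remarks (not part of the theorem). By Catanese the canonical models of the minimal surfaces of general type with
`p_g = K² = 1` are the complete intersections of type `(6, 6)` in `P (1, 2, 2, 3, 3)` with rational double points; they are
regular. The minimal surfaces of general type with `p_g = 1`, `q = 0`, `K² = 2` and a torsion class of order two are the
surfaces `T / ι` (Catanese, Debarre). In both cases the bicanonical system has no base points, so the quadratic parts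
of the equations in `z`, `w` (in `p₁`, `p₂`) span a pencil without base points, which contains exactly two squares; after
completing the squares the equations are as above. The condition on `C_l` follows from `p_g ≠ 0`: if all curves `C_l` were
singular then the surfaces of pairs below were covered by rational curves, all sums `ω_i + ω_j` of conjugates of a
`2`-form `ω` of `S` were zero, and `2 ω_i = ∑_{j ≠ i} (ω_i + ω_j) - ∑_j ω_j = 0`. So the theorem contains Voisin's conjecture
(`n > p_g = 1`; with integral coefficients by Roitman's theorem) for ALL minimal surfaces of general type with `p_g = 1`,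
`q = 0` and `K² = 1`, or `K² = 2` and a torsion class of order two; they have 18 and 16 moduli. It was known for `a = b = 0`
(Todorov surfaces).

Outline of the proof.
* Let `N` be the Galois closure of `F` over `k (s, t)`, with the four embeddings `e_i` of `F`. For a function `u` on the
  points of `S` which vanishes on the cycles rationally equivalent to zero let `u_i` be its pull-back by `e_i`. The
  sum of the `u_i` comes from a rational surface and is constant. The slope `τ = (z_i - z_j) / (w_i - w_j)` of a pair
  satisfies the equation of `C_{τ²}`, and `u_i + u_j` is a function on the surface `P` of pairs with function field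
  `k (τ, s, t)`, which is fibred over the `τ`-line by the curves `C_{τ²}` of genus one. The complementary pair has the slope
  `-τ`, so `u_i + u_j` is odd, up to a constant, under the involution `τ ↦ -τ` of `P`. All pairs are conjugate, except
  for pairs of slope `0` or `∞` (if `a = 0` or `b = 0`), for which the function `u_i + u_j` lives on a double plane and is
  constant.
* Odd cycles on `P`: let `E` be the Jacobian fibration of the curves `C_l`, twisted by `√l`: `y² = x³ + A (l) x + B (l)`, where
  `A` and `B` are divisible by `l²` and `l³` and of degrees at most ten and fifteen in `l`; so `E` is an elliptic K3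
  surface (or rational, or a product). Over the field of the points of `C_l` at infinity there are correspondences
  between `P` and `E`, given by the group law with these points as origins. Their composition is, on functions as above
  and up to constants, a multiple of the projection to the odd part.
* Voisin's property for `n ≥ 2` holds for elliptic K3 surfaces (see GeneralType); it is transferred to odd cycles on all
  models of `P`, and from there by `4 u_0 = ∑_j 2 (u_0 + u_j) - 2 ∑_j u_j` to all cycles of degree zero on `S`. Here all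
  cycles are written in terms of rational places of the function fields, the correspondences are given by
  norms of linear forms in generic points. If `E` is a product of a curve with the `l`-line then the functions are
  constant, by `hq`.
-/

namespace Pool.Agent.Results.MP_83b46e_ag.SmallKSquare

open VC Polynomial Pool.Agent.Helper21.TO Pool.Agent.Helper15.GT Pool.Agent.Helper15.KP

universe u

/-- `F` is of the kind (A): the function field of a complete intersection of type `(6, 6)` in `P (1, 2, 2, 3, 3)`. -/
def KSquareOne (k F : Type u) [Field k] [Field F] [Algebra k F] : Prop :=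
  ∃ (s t z w : F) (a b f g : MvPolynomial (Fin 3) k),
    a.IsHomogeneous 1 ∧ b.IsHomogeneous 1 ∧ f.IsHomogeneous 3 ∧ g.IsHomogeneous 3 ∧
    AlgebraicIndependent k ![s, t] ∧
    z ^ 2 = MvPolynomial.aeval ![s, t, 1] a * w + MvPolynomial.aeval ![s, t, 1] f ∧
    w ^ 2 = MvPolynomial.aeval ![s, t, 1] b * z + MvPolynomial.aeval ![s, t, 1] g ∧
    IntermediateField.adjoin k {s, t, z, w} = ⊤ ∧
    Module.finrank (IntermediateField.adjoin k {s, t}) F = 4 ∧
    ∃ l : k, ∀ x : Fin 3 → k, (∀ i, MvPolynomial.eval x (MvPolynomial.pderiv i
      (MvPolynomial.C (l ^ 3) * MvPolynomial.X 2 * b ^ 2 - MvPolynomial.C (4 * l ^ 2) * g +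
        MvPolynomial.C (4 * l) * f - MvPolynomial.X 2 * a ^ 2)) = 0) → x = 0

/-- The discriminant with respect to `t` of `C_l : l³ t b² - 4 l² g + 4 l f - t a² = 0`, where
`f = f0 t² + f2 (s) t + f4 (s)`, `g = g0 t² + g2 (s) t + g4 (s)`; a polynomial in `s` of degree at most four. -/
noncomputable def disc {k : Type u} [Field k] (a b f2 g2 f4 g4 : k[X]) (f0 g0 l : k) : k[X] :=
  (C (l ^ 3) * b ^ 2 - a ^ 2 + C (4 * l) * f2 - C (4 * l ^ 2) * g2) ^ 2 -
    C (64 * l ^ 2 * (f0 - l * g0)) * (f4 - C l * g4)

/-- `F` is of the kind (B): the function field of the quotient by an involution of a complete intersection of type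
`(4, 4)` in `P (1, 1, 1, 2, 2)`. -/
def KSquareTwo (k F : Type u) [Field k] [Field F] [Algebra k F] : Prop :=
  ∃ (s t z w : F) (a b f2 g2 f4 g4 : k[X]) (f0 g0 : k),
    a.natDegree ≤ 1 ∧ b.natDegree ≤ 1 ∧ f2.natDegree ≤ 2 ∧ g2.natDegree ≤ 2 ∧ f4.natDegree ≤ 4 ∧
    g4.natDegree ≤ 4 ∧ AlgebraicIndependent k ![s, t] ∧
    t * z ^ 2 = t * aeval s a * w + (algebraMap k F f0 * t ^ 2 + aeval s f2 * t + aeval s f4) ∧
    t * w ^ 2 = t * aeval s b * z + (algebraMap k F g0 * t ^ 2 + aeval s g2 * t + aeval s g4) ∧
    IntermediateField.adjoin k {s, t, z, w} = ⊤ ∧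
    Module.finrank (IntermediateField.adjoin k {s, t}) F = 4 ∧
    ∃ l : k, 3 ≤ (disc a b f2 g2 f4 g4 f0 g0 l).natDegree ∧ (disc a b f2 g2 f4 g4 f0 g0 l).Separable

lemma disc_eq {k : Type u} [Field k] (a b f2 g2 f4 g4 : k[X]) (f0 g0 l : k) :
    Pool.Agent.Helper83.KPA.Gq a b f2 g2 f4 g4 f0 g0 l = disc a b f2 g2 f4 g4 f0 g0 l := by
  unfold Pool.Agent.Helper83.KPA.Gq disc
  congr 1
  rw [← mul_assoc, ← C_mul]
  congr 2
  ring

theorem result (k : Type u) [Field k] [IsAlgClosed k] [CharZero k] (F : Type u) [Field F] [Algebra k F]
    (hF : KSquareOne k F ∨ KSquareTwo k F)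
    (hq : ∀ (K : Type u) [Field K] [Algebra k K], IsFunctionField k K → (K →ₐ[k] F) → IsGenus k K 0)
    (M : ℕ) (ξ : Fin M → F) (hξ : ξ ≠ 0) (n : ℕ) (hn : 1 < n)
    (c : Fin n → (proj k (van k ξ)).Cycles) (hc : ∀ i, (c i).sum (fun _ m => m) = 0) :
    ∃ m : ℕ, 0 < m ∧ m • ∑ σ : Equiv.Perm (Fin n), ((Equiv.Perm.sign σ : ℤˣ) : ℤ) •
      extProd (fun i => c (σ i)) ∈ ((proj k (van k ξ)).pow n).Rat := by
  rcases hF with ⟨s, t, z, w, a, b, f, g, ha, hb, hf, hg, hst, hz, hw, hgen, hdeg, hsm⟩ |
    ⟨s, t, z, w, a, b, f2, g2, f4, g4, f0, g0, ha, hb, hf2, hg2, hf4, hg4, hst, hz, hw, hgen, hdeg, l, hl⟩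
  · exact kp_main s t z w a b f g ha hb hf hg hst hz hw hgen hdeg hsm hq M ξ hξ n hn c hc
  · refine kp_main2 s t z w a b f2 g2 f4 g4 f0 g0 ha hb hf2 hg2 hf4 hg4 hst ?_ ?_ hgen hdeg ⟨l, ?_⟩ hq M ξ hξ n hn c hc
    · rw [hz]; ring
    · rw [hw]; ring
    · rw [disc_eq]
      exact hl

end Pool.Agent.Results.MP_83b46e_ag.SmallKSquare
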